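import Pool.Agent.Helper40.Nm.Goals

namespace Pool.Agent.Helper97.Nm

open Pool.Agent.Helper40.Nm Polynomial

theorem divu : DIVU := by
  intro R _ _ _ _ _ n u hn
  have hn0 : n ≠ 0 := by
    rintro rfl
    exact hn (by simp)
  have hH : HenselianRing R (IsLocalRing.maximalIdeal R) := inferInstance
  -- a root in the residue field
  obtain ⟨z, hz⟩ := IsAlgClosed.exists_pow_nat_eq (IsLocalRing.residue R (u : R))
    (Nat.pos_of_ne_zero hn0)
  obtain ⟨a0, ha0⟩ := IsLocalRing.residue_surjective z
  have hu : IsLocalRing.residue R (u : R) ≠ 0 :=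
    (u.isUnit.map (IsLocalRing.residue R)).ne_zero
  have hz0 : z ≠ 0 := by
    rintro rfl
    rw [zero_pow hn0] at hz
    exact hu hz.symm
  let f : R[X] := X ^ n - C (u : R)
  have hf : f.Monic := monic_X_pow_sub_C (u : R) hn0
  have h1 : f.eval a0 ∈ IsLocalRing.maximalIdeal R := by
    rw [← IsLocalRing.residue_eq_zero_iff]
    simp only [f, eval_sub, eval_pow, eval_X, eval_C, map_sub, map_pow]
    rw [ha0, hz, sub_self]
  have h2 : IsUnit (Ideal.Quotient.mk (IsLocalRing.maximalIdeal R) (f.derivative.eval a0)) := by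
    have h3 : IsUnit (f.derivative.eval a0) := by
      rw [← IsLocalRing.residue_ne_zero_iff_isUnit]
      simp only [f, derivative_sub, derivative_X_pow, derivative_C, sub_zero, eval_mul,
        eval_natCast, eval_pow, eval_X, map_mul, map_natCast, map_pow, C_eq_natCast]
      rw [ha0]
      exact mul_ne_zero hn (pow_ne_zero _ hz0)
    exact h3.map _
  obtain ⟨a, ha, ha'⟩ := hH.is_henselian f hf a0 h1 h2
  have h4 : a ^ n = (u : R) := by
    have : f.eval a = 0 := ha
    simp only [f, eval_sub, eval_pow, eval_X, eval_C] at this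
    exact sub_eq_zero.mp this
  have h5 : IsUnit a := by
    have : IsUnit (a ^ n) := h4 ▸ u.isUnit
    exact (isUnit_pow_iff hn0).mp this
  refine ⟨h5.unit, ?_⟩
  ext
  simp [h4]

end Pool.Agent.Helper97.Nm
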