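import Pool.Agent.Helper40.Nm.Goals

namespace Pool.Agent.Helper97.Nm

open Pool.Agent.Helper40.Nm

section

variable {G C : Type} [Group G] [CommGroup C] [MulDistribMulAction G C] {g : ℕ}

theorem nt_apply [Fintype G] (act : G →* AddMonoid.End (Lat g)) (w : C) (z : Lat g →+ ℤ)
    (x : Lat g) : NT act (powHom w z) (Multiplicative.ofAdd x) =
      ∏ γ : G, (γ • w) ^ (z (act γ⁻¹ x)) := by
  unfold NT
  rw [MonoidHom.finset_prod_apply]
  refine Finset.prod_congr rfl fun γ _ => ?_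
  change γ • (w ^ (z (Multiplicative.toAdd (Multiplicative.ofAdd (act γ⁻¹
    (Multiplicative.toAdd (Multiplicative.ofAdd x))))))) = _
  rw [toAdd_ofAdd, toAdd_ofAdd, smul_zpow']

end

theorem ntz : NTZ := by
  intro M E _ _ _ _ _ g act χ a η z w ha hη
  have hmul : ∀ (γ δ : E ≃ₐ[M] E) (x : Lat g), act (γ * δ) x = act γ (act δ x) := by
    intro γ δ x
    rw [map_mul]; rfl
  have hcoc : ∀ γ δ, η (γ * δ) = η γ + act γ (η δ) := by
    intro γ δ
    have h1 : χ + a • η (γ * δ) = χ + a • (η γ + act γ (η δ)) := by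
      rw [← hη, hmul, hη δ, map_add, hη γ, map_nsmul, smul_add, add_assoc]
    have h2 : a • η (γ * δ) = a • (η γ + act γ (η δ)) := add_left_cancel h1
    exact smul_right_injective _ ha.ne' h2
  refine ⟨?_, ?_⟩
  · intro δ x
    rw [nt_apply, nt_apply, Finset.smul_prod']
    refine Fintype.prod_equiv (Equiv.mulLeft δ) _ _ fun γ => ?_
    rw [Equiv.coe_mulLeft, smul_zpow', ← mul_smul, ← hmul]
    congr 2
    rw [mul_inv_rev, inv_mul_cancel_right]
  · refine ⟨∏ γ : E ≃ₐ[M] E, (γ • w) ^ (z (η γ⁻¹)), ?_, ?_⟩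
    · intro δ
      rw [nt_apply, Finset.smul_prod', ← Finset.prod_mul_distrib]
      refine Fintype.prod_equiv (Equiv.mulLeft δ) _ _ fun γ => ?_
      rw [Equiv.coe_mulLeft, smul_zpow', ← mul_smul, ← zpow_add]
      congr 1
      rw [← map_add, add_comm, ← hcoc, mul_inv_rev, inv_mul_cancel_right]
    · rw [nt_apply]
      have h1 : ∀ γ : E ≃ₐ[M] E, (γ • w) ^ (z (act γ⁻¹ χ)) =
          (γ • w) ^ (z χ) * ((γ • w) ^ (z (η γ⁻¹))) ^ a := by
        intro γ
        rw [hη, map_add, map_nsmul, zpow_add, ← zpow_natCast, ← zpow_mul, nsmul_eq_mul, mul_comm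
          (z (η γ⁻¹))]
      rw [Finset.prod_congr rfl fun γ _ => h1 γ, Finset.prod_mul_distrib, Finset.prod_pow,
        Finset.prod_zpow]
      rw [Algebra.norm_eq_prod_automorphisms]
      push_cast
      rfl

end Pool.Agent.Helper97.Nm
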